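import Pool.Agent.GTO.StmtsA
import Pool.Agent.Helper38_GTO.Fin

/-! Squad GTO (MP_122998_co), row CNN: `N` consecutive columns fail rarely. -/

namespace Pool.Agent.GTO.H21

open Finset
open scoped Classical

theorem ngood_cons {ι : Type} [Fintype ι] (a : ι → V) (N : ℕ) (d f : Dat ι)
    (hd : Good a d) (hc : Col a d f) (hf : NGood a N f) : NGood a (N + 1) d := by
  obtain ⟨_, F, hF0, hF⟩ := hf
  refine ⟨hd, fun i => Nat.casesOn i d F, rfl, ?_⟩
  intro i hi
  cases i with
  | zero =>
    show Col a d (F 0)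
    rw [hF0]
    exact hc
  | succ i =>
    show Col a (F i) (F (i + 1))
    exact hF i (by omega)

theorem cnn (cn6 : Cn6Stmt) (col : ColStmt) : CnnStmt := by
  intro ι _ a hPI N
  have hfin := H38.finite_dat ι
  obtain ⟨hfun, hinj, hprop⟩ := col ι a hPI
  have h6 := cn6 ι a hPI
  induction N with
  | zero =>
    have : {d : Dat ι | Good a d ∧ ¬ NGood a 0 d} = ∅ := by
      ext d
      simp only [Set.mem_ofPred_eq, Set.mem_empty_iff_false, iff_false, not_and, not_not]
      intro hd
      exact ⟨hd, fun _ => d, rfl, fun i hi => absurd hi (Nat.not_lt_zero i)⟩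
    rw [this]
    simp
  | succ N ih =>
    set S : Set (Dat ι) := {d : Dat ι | Good a d ∧ ¬ NGood a N d} with hS
    set K : Set (Dat ι) := {d : Dat ι | Good a d ∧ ¬ ∃ f, Col a d f} with hK
    set T : Set (Dat ι) := {d : Dat ι | ∃ f, Col a d f ∧ f ∈ S} with hT
    have hsub : {d : Dat ι | Good a d ∧ ¬ NGood a (N + 1) d} ⊆ K ∪ T := by
      rintro d ⟨hd, hn⟩
      by_cases hf : ∃ f, Col a d f
      · right
        obtain ⟨f, hc⟩ := hf
        refine ⟨f, hc, (hprop d f hc).2.1, ?_⟩
        intro hN
        exact hn (ngood_cons a N d f hd hc hN)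
      · left
        exact ⟨hd, hf⟩
    have hTS : T.ncard ≤ S.ncard := by
      refine Set.ncard_le_ncard_of_injOn
        (fun d => if h : ∃ f, Col a d f ∧ f ∈ S then h.choose else d) ?_ ?_ (Set.toFinite _)
      · intro d hd
        have hd' : ∃ f, Col a d f ∧ f ∈ S := hd
        show (if h : ∃ f, Col a d f ∧ f ∈ S then h.choose else d) ∈ S
        rw [dif_pos hd']
        exact hd'.choose_spec.2
      · intro d hd d' hd' heq
        have h1 : ∃ f, Col a d f ∧ f ∈ S := hd
        have h2 : ∃ f, Col a d' f ∧ f ∈ S := hd'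
        have heq' : (if h : ∃ f, Col a d f ∧ f ∈ S then h.choose else d) =
            (if h : ∃ f, Col a d' f ∧ f ∈ S then h.choose else d') := heq
        rw [dif_pos h1, dif_pos h2] at heq'
        have c1 := h1.choose_spec.1
        have c2 := h2.choose_spec.1
        rw [heq'] at c1
        exact hinj d d' _ c1 c2
    calc {d : Dat ι | Good a d ∧ ¬ NGood a (N + 1) d}.ncard ≤ (K ∪ T).ncard :=
          Set.ncard_le_ncard hsub (Set.toFinite _)
      _ ≤ K.ncard + T.ncard := Set.ncard_union_le _ _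
      _ ≤ 6 * EE a + 6 * N * EE a := Nat.add_le_add h6 (hTS.trans ih)
      _ = 6 * (N + 1) * EE a := by ring

end Pool.Agent.GTO.H21
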